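import Pool.Agent.H435.AssocE

/-!
# MP_2a8a61_ag: the discriminant exponent of the associated-form contravariant is always `1`

`Exps n d → ℂ` is the space of the forms of degree `d` in `n` variables (coefficient vectors), `form c`
is the form with coefficient vector `c`, `Nondeg c` says that its partial derivatives have no common
zero except the origin, and `IsAssociatedForm d f G` says that `G` is the associated form of `f`.
`Extends n d D` says that `D Φ` extends to a morphism on the space of all the forms of degree `d`.

The proof. Let `F` be the generic form, with coefficients in the ring `A` of polynomials in the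
coefficients. A polynomial `D ∈ A` which vanishes at the degenerate forms is an inertia form:
`z_j ^ N D ∈ (F_1, …, F_n)` (`inertia`). Exchanging the `F_i` one by one with `z_i ^ N` shows
that a form of degree `n (d - 2)` over `A`, which is multiplied into `(F_1, …, F_n)` by the `z_j ^ N`,
is an `A`-multiple of the Hessian modulo `(F_1, …, F_n)` (`chain_exists`). So
`D z ^ β ≡ r_β Hess (F)` with `r_β ∈ A`, and the `r_β` give the coefficients of `D Φ`.
-/

set_option autoImplicit false

namespace Pool.Agent.Results.MP_2a8a61_ag.DiscExponentOne

open MvPolynomial Pool.Agent.H435.Assoc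

/-- Let `n ≥ 2` and `d ≥ 3`.

* Every nondegenerate form of degree `d` in `n` variables has exactly one associated form.
* If a polynomial `D` in the coefficients vanishes at all the degenerate forms, then `D Φ` extends to a
  morphism on the space of all forms of degree `d`.
* In particular `p(n, d) = 1`: for the discriminant `Δ` the least positive integer `p` such that
  `Δ ^ p Φ` extends is `1`. -/
theorem result (n d : ℕ) (_hn : 2 ≤ n) (hd : 3 ≤ d) :
    (∀ c : Exps n d → ℂ, Nondeg c → ∃! G, IsAssociatedForm d (form c) G) ∧
    (∀ D : MvPolynomial (Exps n d) ℂ, (∀ c : Exps n d → ℂ, ¬ Nondeg c → eval c D = 0) →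
      Extends n d D) ∧
    (∀ Δ : MvPolynomial (Exps n d) ℂ, IsDiscriminant n d Δ →
      IsLeast {p : ℕ | 0 < p ∧ Extends n d (Δ ^ p)} 1) := by
  have hd2 : 2 ≤ d := by omega
  refine ⟨fun c hc => existsUnique_assoc hd2 c hc, fun D hD => extends_of_vanish hd2 D hD, ?_⟩
  intro Δ hΔ
  refine ⟨⟨one_pos, ?_⟩, fun p hp => hp.1⟩
  rw [pow_one]
  exact extends_of_vanish hd2 Δ fun c hc => (hΔ.2 c).2 hc

end Pool.Agent.Results.MP_2a8a61_ag.DiscExponentOne
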